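import Pool.Agent.T2H45.PalU

/-!
# MP_6957f6_co, Q1: a palindromic fixed point of a primitive morphism whose language is not
generated by any morphism of class P

The primitive morphism `φ` on four letters `a, b, c, e`
`a ↦ acaabae`, `b ↦ abaacaeabaacaeabaacaabae`, `c ↦ abaacaeabaacaabaacaeacaaba`,
`e ↦ acaabaeabaacaabaacaeacaeabaeacaeacaaba`
has the palindromic fixed point `u = π(z)`, where `π : 0 ↦ aba, 1 ↦ aca, 2 ↦ e` and `z` is the fixed
point of the 16-uniform morphism `0 ↦ 1020120120102102`, `1 ↦ 1020120101210102`,
`2 ↦ 1020101212021210`.

Let `ψ` be a morphism of class P with the palindrome `p` which preserves the language of `u`. The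
word `aa` is a factor of `u`, so `ψ(a) ψ(a) p = p t p t p` is one, for a palindrome `t`; but `z` has
no factor `p t p t p` with palindromes `p`, `t` and nonempty `p`. So `p` is empty. All palindromes in
`z` have odd length, and all long squares in `z` have even periods (multiples of 16). The square
`201201` shows that the images of the letters under the iterates of `ψ` have bounded lengths.
-/

set_option autoImplicit false

namespace Pool.Agent.Results.MP_6957f6_co.NoClassPGenerator

open Pool.Agent.T2H45.Pal

/-- There are a primitive morphism `φ` on four letters and a palindromic fixed point `u` of `φ` such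
that the following holds for every morphism `ψ` which is in class P, or is conjugate to a morphism
in class P, and every fixed point `v` of `ψ` with the language of `u`: the iterated images
`ψ^n(c)` of the letters are bounded in length (by 59); in particular `ψ` is not primitive. -/
theorem result :
    ∃ (φ : Fin 4 → List (Fin 4)) (u : ℕ → Fin 4),
      IsPrimitive φ ∧ MapsTo φ u u ∧ IsPalindromic u ∧
      ∀ (ψ : Fin 4 → List (Fin 4)) (v : ℕ → Fin 4), (ClassP ψ ∨ ClassP' ψ) → MapsTo ψ v v →
        language v = language u →
          ¬ IsPrimitive ψ ∧ ∀ (n : ℕ) (c : Fin 4), ((ap ψ)^[n] [c]).length ≤ 59 := by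
  refine ⟨φ, u, primitive, fixed, palindromic, fun ψ v hP hv hL => ?_⟩
  have hP' : ClassP' ψ := by
    rcases hP with h | h
    · exact ⟨ψ, h, [], Or.inl fun a => by simp⟩
    · exact h
  have h := final ψ v hP' hv hL
  exact ⟨not_primitive h, h⟩

end Pool.Agent.Results.MP_6957f6_co.NoClassPGenerator
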